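import Pool.Agent.Work.MP_c41774_al.Full.CStmts

/-!
# Block T (Part 2 of note 1545): definitions. Captain helper12.
-/

noncomputable section

namespace Pool.Agent.Work.MP_c41774_al.Full.T

open Finset MvPolynomial
open Pool.Agent.Work.MP_c41774_al.Wall

/-! ### numeric part -/

/-- finitely supported function on `ℤ` -/
def FS (f : ℤ → ℤ) : Prop := ∃ M : ℤ, ∀ x, f x ≠ 0 → |x| ≤ M

/-- finitely supported function on `ℤ × ℤ` -/
def FS2 (χ : ℤ → ℤ → ℤ) : Prop := ∃ M : ℤ, ∀ i j, χ i j ≠ 0 → |i| ≤ M ∧ |j| ≤ M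

/-- lower tail `∑_{k ≥ 0} f (x - N k)` -/
def tl (N : ℤ) (f : ℤ → ℤ) (x : ℤ) : ℤ := ∑ᶠ k : ℕ, f (x - N * k)

/-- class sum `∑_{s ∈ ℤ} f (x + N s)` -/
def cl (N : ℤ) (f : ℤ → ℤ) (x : ℤ) : ℤ := ∑ᶠ s : ℤ, f (x + N * s)

/-- Properties of the weight multiplicities `χ(i,j)` of an `sl₂ × sl₂`-module which is the space of
signed invariants of `N ⊗ V_A^{⊗ p} ⊗ V_B^{⊗ q}`, `dim V_A = c`, `dim V_B = b`. -/
structure ChiP (b c p q : ℕ) (χ : ℤ → ℤ → ℤ) : Prop where
  fin : FS2 χ
  symA : ∀ i j, χ (-i) j = χ i j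
  symB : ∀ i j, χ i (-j) = χ i j
  dd : ∀ i j, i ≤ 1 → j ≤ 1 → χ (i - 2) j + χ i (j - 2) ≤ χ i j + χ (i - 2) (j - 2)
  rotA : ∀ i j, cl (2 * c) (fun x => χ x j) (i + 2 * p) = cl (2 * c) (fun x => χ x j) i
  rotB : ∀ i j, cl (2 * b) (χ i) (j + 2 * q) = cl (2 * b) (χ i) j

/-- `f(x) = ∑_{b i + c j = x} χ(i,j)` -/
def fch (b c : ℤ) (χ : ℤ → ℤ → ℤ) (x : ℤ) : ℤ :=
  ∑ᶠ z : ℤ × ℤ, if b * z.1 + c * z.2 = x then χ z.1 z.2 else 0

/-- Step 1 of the half trick -/
def stA (r e : ℤ) (χ : ℤ → ℤ → ℤ) (i J : ℤ) : ℤ :=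
  tl (2 * r) (χ i) (J + e) - tl (2 * r) (χ i) (J - e)

/-- multiplication by `(1 - u^{2N s})/(1 - u^{2N}) = ∑_{t < s} u^{2Nt}` -/
def geo (s : ℕ) (N : ℤ) (f : ℤ → ℤ) (x : ℤ) : ℤ := ∑ t ∈ range s, f (x - 2 * N * t)

/-! ### weights and operators -/

section ops

variable {b c : ℕ}

/-- weight of a colour for the first `sl₂` -/
def wa : Col b c → ℤ
  | Sum.inl i => (c : ℤ) - 1 - 2 * (i : ℕ)
  | Sum.inr _ => 0

/-- weight of a colour for the second `sl₂` -/
def wb : Col b c → ℤ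
  | Sum.inl _ => 0
  | Sum.inr j => (b : ℤ) - 1 - 2 * (j : ℕ)

/-- raising operator of the first `sl₂` on the colours: `(E f)(i) = (i+1) f(i+1)` -/
def mEA : Col b c → Col b c → ℚ
  | Sum.inl i, Sum.inl j => if (j : ℕ) = i + 1 then (i : ℕ) + 1 else 0
  | _, _ => 0

/-- lowering operator of the first `sl₂` on the colours: `(F f)(i+1) = (c-1-i) f(i)` -/
def mFA : Col b c → Col b c → ℚ
  | Sum.inl i, Sum.inl j => if (i : ℕ) = j + 1 then (c : ℚ) - 1 - (j : ℕ) else 0
  | _, _ => 0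

/-- raising operator of the second `sl₂` on the colours -/
def mEB : Col b c → Col b c → ℚ
  | Sum.inr i, Sum.inr j => if (j : ℕ) = i + 1 then (i : ℕ) + 1 else 0
  | _, _ => 0

/-- lowering operator of the second `sl₂` on the colours -/
def mFB : Col b c → Col b c → ℚ
  | Sum.inr i, Sum.inr j => if (i : ℕ) = j + 1 then (b : ℚ) - 1 - (j : ℕ) else 0
  | _, _ => 0

/-- product of colour matrices -/
def mmul (m m' : Col b c → Col b c → ℚ) : Col b c → Col b c → ℚ :=
  fun x y => ∑ z, m x z * m' z y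

/-- the matrix respects the types of the colours -/
def TyM (m : Col b c → Col b c → ℚ) : Prop := ∀ x y, m x y ≠ 0 → x.isLeft = y.isLeft

variable {L : Type*} [Fintype L] [DecidableEq L]

/-- weights of a word -/
def WA (w : L → Col b c) : ℤ := ∑ l, wa (w l)

/-- weights of a word -/
def WB (w : L → Col b c) : ℤ := ∑ l, wb (w l)

/-- a colour matrix acting as a derivation on families -/
def DD (m : Col b c → Col b c → ℚ) : Fm b c L →ₗ[ℚ] Fm b c L where
  toFun F := fun w => ∑ l, ∑ a, m (w l) a • F (Function.update w l a)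
  map_add' F G := by
    funext w
    simp only [Pi.add_apply, smul_add, Finset.sum_add_distrib]
  map_smul' r F := by
    funext w
    simp only [Pi.smul_apply, RingHom.id_apply, Finset.smul_sum]
    refine Finset.sum_congr rfl fun l _ => Finset.sum_congr rfl fun a _ => ?_
    rw [smul_comm]

/-- a permutation of the colours acting on families -/
def TT (ρ : Equiv.Perm (Col b c)) : Fm b c L →ₗ[ℚ] Fm b c L where
  toFun F := fun w => F (ρ ∘ w)
  map_add' F G := rfl
  map_smul' r F := rfl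

/-- the permutation of the colours respects the types -/
def TyP (ρ : Equiv.Perm (Col b c)) : Prop := ∀ x, (ρ x).isLeft = x.isLeft

variable (b c L)

/-- signed invariants of charge `κ` with homogeneous values of degree `n` -/
def UU (κ : ℕ × ℕ) (n : ℕ) : Submodule ℚ (Fm b c L) where
  carrier := {F | (∀ g : Equiv.Perm L, act g F = sg g • F) ∧ (∀ w, chg w ≠ κ → F w = 0) ∧
    ∀ w, (F w).IsHomogeneous n}
  add_mem' := by
    rintro F G ⟨hF1, hF2, hF3⟩ ⟨hG1, hG2, hG3⟩
    refine ⟨fun g => ?_, fun w hw => ?_, fun w => (hF3 w).add (hG3 w)⟩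
    · rw [smul_add, ← hF1, ← hG1]
      funext w
      simp [act]
    · rw [Pi.add_apply, hF2 w hw, hG2 w hw, add_zero]
  zero_mem' := by
    refine ⟨fun g => ?_, fun _ _ => rfl, fun _ => isHomogeneous_zero _ _ _⟩
    funext w
    simp [act]
  smul_mem' := by
    rintro r F ⟨hF1, hF2, hF3⟩
    refine ⟨fun g => ?_, fun w hw => ?_, fun w => ?_⟩
    · rw [smul_comm, ← hF1]
      funext w
      simp [act]
    · rw [Pi.smul_apply, hF2 w hw, smul_zero]
    · rw [Pi.smul_apply, smul_eq_C_mul]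
      simpa using (isHomogeneous_C L r).mul (hF3 w)

/-- weight spaces -/
def WW (i j : ℤ) : Submodule ℚ (Fm b c L) where
  carrier := {F | ∀ w, F w ≠ 0 → WA w = i ∧ WB w = j}
  add_mem' := by
    intro F G hF hG w hw
    by_cases h : F w = 0
    · refine hG w fun h' => hw ?_
      rw [Pi.add_apply, h, h', add_zero]
    · exact hF w h
  zero_mem' := fun w hw => absurd rfl hw
  smul_mem' := by
    intro r F hF w hw
    refine hF w fun h => hw ?_
    rw [Pi.smul_apply, h, smul_zero]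

/-- projection to a weight space -/
def PW (i j : ℤ) : Fm b c L →ₗ[ℚ] Fm b c L where
  toFun F := fun w => if WA w = i ∧ WB w = j then F w else 0
  map_add' F G := by
    funext w
    simp only [Pi.add_apply]
    split_ifs
    · rfl
    · rw [add_zero]
  map_smul' r F := by
    funext w
    simp only [Pi.smul_apply, RingHom.id_apply]
    split_ifs
    · rfl
    · rw [smul_zero]

variable {b c L}

/-- weight multiplicities of `V/I` (signed invariants, charge `κ`, polynomial degree `n`) -/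
def chi (b c : ℕ) (V I : (L → Bool) → Submodule ℚ (MvPolynomial L ℚ)) (κ : ℕ × ℕ) (n : ℕ)
    (i j : ℤ) : ℕ :=
  dimQ (UU b c L κ n ⊓ WW b c L i j ⊓ vin V) (vin I)

/-- weight multiplicities of `B(S_k)` in polynomial degree `n` -/
def chiB (b c : ℕ) (κ₀ : ℕ × ℕ) (k n : ℕ) (i j : ℤ) : ℤ :=
  (chi (L := Fin (k * κ₀.1 + k * κ₀.2)) b c (Pf κ₀ 1) (IpS _ κ₀) (k * κ₀.1, k * κ₀.2) n i j : ℤ)

end ops

end Pool.Agent.Work.MP_c41774_al.Full.T
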