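import Pool.Agent.Work.MP_c41774_al.Bd.B03

/-!
# Item ROT: rotation of the colours
-/

noncomputable section

namespace Pool.Agent.Work.MP_c41774_al.Full.T

open Finset MvPolynomial
open Pool.Agent.Work.MP_c41774_al.Wall

/-- families supported on the words with weights in the range of `pt` -/
def ROT_CL (b c : ℕ) {L : Type} [Fintype L] [DecidableEq L]
    (V : (L → Bool) → Submodule ℚ (MvPolynomial L ℚ)) (κ : ℕ × ℕ) (n : ℕ) (pt : ℤ → ℤ × ℤ) :
    Submodule ℚ (Fm b c L) where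
  carrier := {F | (F ∈ UU b c L κ n ∧ F ∈ vin V) ∧
    ∀ w, F w ≠ 0 → ∃ s : ℤ, WA w = (pt s).1 ∧ WB w = (pt s).2}
  add_mem' := by
    rintro F G ⟨⟨hF1, hF2⟩, hF3⟩ ⟨⟨hG1, hG2⟩, hG3⟩
    refine ⟨⟨Submodule.add_mem _ hF1 hG1, Submodule.add_mem _ hF2 hG2⟩, fun w hw => ?_⟩
    by_cases h : F w = 0
    · refine hG3 w fun h' => hw ?_
      rw [Pi.add_apply, h, h', add_zero]
    · exact hF3 w h
  zero_mem' := ⟨⟨Submodule.zero_mem _, Submodule.zero_mem _⟩, fun w hw => absurd rfl hw⟩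
  smul_mem' := by
    rintro r F ⟨⟨hF1, hF2⟩, hF3⟩
    refine ⟨⟨Submodule.smul_mem _ r hF1, Submodule.smul_mem _ r hF2⟩, fun w hw => ?_⟩
    refine hF3 w fun h => hw ?_
    rw [Pi.smul_apply, h, smul_zero]

theorem ROT_dimQ_bot {E : Type*} [AddCommGroup E] [Module ℚ E] (U W : Submodule ℚ E)
    (hU : U = ⊥) : dimQ U W = 0 := by
  subst hU
  have : Subsingleton ((⊥ : Submodule ℚ E) ⧸ W.submoduleOf ⊥) :=
    Quotient.instSubsingletonQuotient _
  exact Module.finrank_zero_of_subsingleton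

theorem ROT_dim (hDS : T_DSUM) (hPW : T_PW) (hU : T_UFD) (b c : ℕ)
    (L : Type) [Fintype L] [DecidableEq L]
    (V I : (L → Bool) → Submodule ℚ (MvPolynomial L ℚ)) (κ : ℕ × ℕ) (n : ℕ)
    (pt : ℤ → ℤ × ℤ) (hinj : Function.Injective pt) (M : ℤ)
    (hM : ∀ (s : ℤ) (w : L → Col b c), WA w = (pt s).1 → WB w = (pt s).2 → s ∈ Icc (-M) M) :
    ∑ᶠ s : ℤ, (chi b c V I κ n (pt s).1 (pt s).2 : ℤ) =
      (dimQ (ROT_CL b c V κ n pt) (vin I) : ℤ) := by
  have hfd := (hU b c L).1 κ n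
  have hbot := (hU b c L).2.2
  have key : dimQ (ROT_CL b c V κ n pt) (vin I) =
      ∑ s ∈ Icc (-M) M, dimQ (ROT_CL b c V κ n pt ⊓ WW b c L (pt s).1 (pt s).2) (vin I) := by
    refine hDS (Fm b c L) ℤ (Icc (-M) M) (fun s => PW b c L (pt s).1 (pt s).2) _ _
      (fun s => WW b c L (pt s).1 (pt s).2) ?_ ?_ ?_ ?_ ?_ ?_
    · rintro s _ F ⟨⟨h1, h2⟩, h3⟩
      have hp := hPW b c L (pt s).1 (pt s).2 F
      refine ⟨⟨⟨hp.1 κ n h1, hp.2.1 V h2⟩, fun w hw => h3 w fun h => hw ?_⟩, hp.2.2.1⟩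
      show (if _ then F w else 0) = 0
      rw [h, ite_self]
    · intro s _ F hF
      exact (hPW b c L (pt s).1 (pt s).2 F).2.1 I hF
    · intro s _ F _ hF
      exact (hPW b c L (pt s).1 (pt s).2 F).2.2.2.1 hF
    · intro s _ s' _ hne F _ hF
      refine (hPW b c L (pt s').1 (pt s').2 F).2.2.2.2 (pt s).1 (pt s).2 ?_ hF
      intro h
      exact hne (hinj h)
    · rintro F ⟨_, h3⟩
      funext w
      rw [Finset.sum_apply]
      by_cases hw : F w = 0
      · rw [hw]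
        refine Finset.sum_eq_zero fun s _ => ?_
        show (if _ then F w else 0) = 0
        rw [hw, ite_self]
      · obtain ⟨s, hs1, hs2⟩ := h3 w hw
        rw [Finset.sum_eq_single s]
        · show (if _ then F w else 0) = F w
          rw [if_pos ⟨hs1, hs2⟩]
        · intro s' _ hne
          show (if _ then F w else 0) = 0
          rw [if_neg]
          rintro ⟨h1, h2⟩
          exact hne (hinj (Prod.ext (h1.symm.trans hs1) (h2.symm.trans hs2)))
        · intro h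
          exact absurd (hM s w hs1 hs2) h
    · intro s _
      have := hfd
      exact Submodule.finiteDimensional_of_le
        (S₂ := UU b c L κ n) (fun F hF => hF.1.1.1)
  rw [key, Nat.cast_sum, finsum_eq_sum_of_support_subset (s := Icc (-M) M)]
  · refine Finset.sum_congr rfl fun s _ => ?_
    have hsub : UU b c L κ n ⊓ WW b c L (pt s).1 (pt s).2 ⊓ vin V =
        ROT_CL b c V κ n pt ⊓ WW b c L (pt s).1 (pt s).2 := by
      apply le_antisymm
      · intro F hF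
        exact ⟨⟨⟨hF.1.1, hF.2⟩, fun w hw => ⟨s, hF.1.2 w hw⟩⟩, hF.1.2⟩
      · intro F hF
        exact ⟨⟨hF.1.1.1, hF.2⟩, hF.1.1.2⟩
    unfold chi
    rw [hsub]
  · intro s hs
    rw [Function.mem_support] at hs
    by_contra hn
    apply hs
    rw [Nat.cast_eq_zero]
    refine ROT_dimQ_bot _ _ ?_
    rw [hbot (pt s).1 (pt s).2 (fun w hw => hn (by
      rw [Finset.mem_coe]; exact hM s w hw.1 hw.2)), inf_bot_eq, bot_inf_eq]

theorem ROT_eq (hT : T_TTU) (hD : T_DMAP) (b c : ℕ) (L : Type) [Fintype L] [DecidableEq L]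
    (V I : (L → Bool) → Submodule ℚ (MvPolynomial L ℚ)) (κ : ℕ × ℕ) (n : ℕ)
    (pt pt' : ℤ → ℤ × ℤ) (ρ : Equiv.Perm (Col b c)) (hρ : TyP ρ)
    (h : ∀ w : L → Col b c, chg w = κ →
      ((∃ s : ℤ, WA (⇑ρ ∘ w) = (pt s).1 ∧ WB (⇑ρ ∘ w) = (pt s).2) ↔
        ∃ s : ℤ, WA w = (pt' s).1 ∧ WB w = (pt' s).2)) :
    dimQ (ROT_CL b c V κ n pt) (vin I) = dimQ (ROT_CL b c V κ n pt') (vin I) := by
  have htw : ∀ w : L → Col b c, tw (⇑ρ ∘ w) = tw w := fun w => funext fun l => hρ (w l)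
  have hchg : ∀ w : L → Col b c, chg (⇑ρ ∘ w) = chg w := fun w => by unfold chg; rw [htw]
  refine hD (Fm b c L) (TT ρ) (TT ρ⁻¹) _ _ _ ?_ ?_ ?_ ?_ ?_ ?_
  · intro F; exact (hT b c L ρ F hρ).2.2.1
  · intro F; exact (hT b c L ρ F hρ).2.2.2.1
  · rintro F ⟨⟨h1, h2⟩, h3⟩
    refine ⟨⟨(hT b c L ρ F hρ).1 κ n h1, (hT b c L ρ F hρ).2.1 V h2⟩, ?_⟩
    intro w hw
    have hw' : F (⇑ρ ∘ w) ≠ 0 := hw
    have hc : chg w = κ := by
      by_contra hne
      exact hw' (h1.2.1 _ (by rw [hchg]; exact hne))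
    exact (h w hc).mp (h3 _ hw')
  · rintro F ⟨⟨h1, h2⟩, h3⟩
    have hρ' : TyP ρ⁻¹ := (hT b c L ρ F hρ).2.2.2.2
    refine ⟨⟨(hT b c L ρ⁻¹ F hρ').1 κ n h1, (hT b c L ρ⁻¹ F hρ').2.1 V h2⟩, ?_⟩
    intro w hw
    have hw' : F (⇑ρ⁻¹ ∘ w) ≠ 0 := hw
    have hc : chg (⇑ρ⁻¹ ∘ w) = κ := by
      by_contra hne
      exact hw' (h1.2.1 _ hne)
    have h4 := (h (⇑ρ⁻¹ ∘ w) hc).mpr (h3 _ hw')
    have h5 : ⇑ρ ∘ (⇑ρ⁻¹ ∘ w) = w := by
      funext l
      simp
    rwa [h5] at h4
  · intro F hF; exact (hT b c L ρ F hρ).2.1 I hF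
  · intro F hF
    exact (hT b c L ρ⁻¹ F (hT b c L ρ F hρ).2.2.2.2).2.1 I hF

/-- rotation of the x-colours -/
def ROT_rA (b c : ℕ) : Equiv.Perm (Col b c) := Equiv.sumCongr (finRotate c) (Equiv.refl _)

/-- rotation of the y-colours -/
def ROT_rB (b c : ℕ) : Equiv.Perm (Col b c) := Equiv.sumCongr (Equiv.refl _) (finRotate b)

theorem ROT_wa (b c : ℕ) (hc : 0 < c) (x : Col b c) :
    ∃ k : ℤ, wa (ROT_rA b c x) = wa x - 2 * (if x.isLeft = true then 1 else 0) + 2 * c * k := by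
  rcases x with a | a
  · obtain ⟨c', rfl⟩ : ∃ c', c = c' + 1 := ⟨c - 1, by omega⟩
    refine ⟨if a = Fin.last c' then 1 else 0, ?_⟩
    show ((c' + 1 : ℕ) : ℤ) - 1 - 2 * ((finRotate (c' + 1) a : Fin (c' + 1)) : ℕ) =
      ((c' + 1 : ℕ) : ℤ) - 1 - 2 * (a : ℕ) - 2 * (if (Sum.inl a : Col b (c' + 1)).isLeft = true
        then 1 else 0) + 2 * ((c' + 1 : ℕ) : ℤ) * (if a = Fin.last c' then 1 else 0)
    rw [coe_finRotate]
    by_cases h : a = Fin.last c'
    · rw [if_pos h, if_pos h, h, Fin.val_last]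
      simp
      ring
    · rw [if_neg h, if_neg h]
      simp
      ring
  · refine ⟨0, ?_⟩
    show (0 : ℤ) = 0 - 2 * (if (Sum.inr a : Col b c).isLeft = true then 1 else 0) + 2 * c * 0
    rw [if_neg (by simp)]; ring

theorem ROT_wb (b c : ℕ) (hb : 0 < b) (x : Col b c) :
    ∃ k : ℤ, wb (ROT_rB b c x) = wb x - 2 * (if x.isLeft = false then 1 else 0) + 2 * b * k := by
  rcases x with a | a
  · refine ⟨0, ?_⟩
    show (0 : ℤ) = 0 - 2 * (if (Sum.inl a : Col b c).isLeft = false then 1 else 0) + 2 * b * 0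
    rw [if_neg (by simp)]; ring
  · obtain ⟨b', rfl⟩ : ∃ b', b = b' + 1 := ⟨b - 1, by omega⟩
    refine ⟨if a = Fin.last b' then 1 else 0, ?_⟩
    show ((b' + 1 : ℕ) : ℤ) - 1 - 2 * ((finRotate (b' + 1) a : Fin (b' + 1)) : ℕ) =
      ((b' + 1 : ℕ) : ℤ) - 1 - 2 * (a : ℕ) - 2 * (if (Sum.inr a : Col (b' + 1) c).isLeft = false
        then 1 else 0) + 2 * ((b' + 1 : ℕ) : ℤ) * (if a = Fin.last b' then 1 else 0)
    rw [coe_finRotate]
    by_cases h : a = Fin.last b'
    · rw [if_pos h, if_pos h, h, Fin.val_last]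
      simp
      ring
    · rw [if_neg h, if_neg h]
      simp
      ring

theorem ROT_WA (b c : ℕ) (hc : 0 < c) {L : Type} [Fintype L] [DecidableEq L]
    (w : L → Col b c) :
    ∃ k : ℤ, WA (⇑(ROT_rA b c) ∘ w) = WA w - 2 * (nx (tw w) univ : ℤ) + 2 * c * k := by
  choose k hk using ROT_wa b c hc
  refine ⟨∑ l, k (w l), ?_⟩
  have h1 : (nx (tw w) univ : ℤ) = ∑ l : L, if (w l).isLeft = true then (1 : ℤ) else 0 := by
    rw [nx, Finset.card_filter]; push_cast; rfl
  rw [h1, WA, WA, Finset.mul_sum, Finset.mul_sum, ← Finset.sum_sub_distrib,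
    ← Finset.sum_add_distrib]
  exact Finset.sum_congr rfl fun l _ => hk (w l)

theorem ROT_WB (b c : ℕ) (hb : 0 < b) {L : Type} [Fintype L] [DecidableEq L]
    (w : L → Col b c) :
    ∃ k : ℤ, WB (⇑(ROT_rB b c) ∘ w) = WB w - 2 * (ny (tw w) univ : ℤ) + 2 * b * k := by
  choose k hk using ROT_wb b c hb
  refine ⟨∑ l, k (w l), ?_⟩
  have h1 : (ny (tw w) univ : ℤ) = ∑ l : L, if (w l).isLeft = false then (1 : ℤ) else 0 := by
    rw [ny, Finset.card_filter]; push_cast; rfl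
  rw [h1, WB, WB, Finset.mul_sum, Finset.mul_sum, ← Finset.sum_sub_distrib,
    ← Finset.sum_add_distrib]
  exact Finset.sum_congr rfl fun l _ => hk (w l)

theorem ROT_bound (a x s : ℤ) (c : ℕ) (hc : 0 < c) (K : ℤ) (h : |x + 2 * (c : ℤ) * s| ≤ K)
    (ha : a = |x| + K) : s ∈ Icc (-a) a := by
  have hc' : (1 : ℤ) ≤ c := by exact_mod_cast hc
  have h1 : |2 * (c : ℤ) * s| ≤ |x| + K := by
    have : 2 * (c : ℤ) * s = (x + 2 * (c : ℤ) * s) + (-x) := by ring
    rw [this]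
    refine (abs_add_le _ _).trans ?_
    rw [abs_neg]; linarith
  have h2 : |s| ≤ |2 * (c : ℤ) * s| := by
    rw [abs_mul]
    have : (1 : ℤ) ≤ |2 * (c : ℤ)| := by
      rw [abs_of_pos (by linarith)]; linarith
    nlinarith [abs_nonneg s]
  rw [Finset.mem_Icc, ← abs_le, ha]
  exact h2.trans h1

theorem pr_ROT : T_ROT := by
  intro hT hD hDS hPW hU b c hb hc L _ _ V I κ n i j
  have hbZ : (b : ℤ) ≠ 0 := by exact_mod_cast hb.ne'
  have hcZ : (c : ℤ) ≠ 0 := by exact_mod_cast hc.ne'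
  have hbd := (hU b c L).2.1
  constructor
  · have e1 := ROT_dim hDS hPW hU b c L V I κ n (fun s => (i + 2 * κ.1 + 2 * c * s, j))
      (by
        intro s s' h
        have := congrArg Prod.fst h
        simp only at this
        have h3 : 2 * (c : ℤ) * (s - s') = 0 := by linarith
        rcases mul_eq_zero.mp h3 with h4 | h4
        · exact absurd h4 (mul_ne_zero two_ne_zero hcZ)
        · linarith)
      (|i + 2 * κ.1| + c * Fintype.card L)
      (fun s w h1 _ => ROT_bound _ _ s c hc _ (by have h := (hbd w).1; rw [h1] at h; exact h) rfl)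
    have e2 := ROT_dim hDS hPW hU b c L V I κ n (fun s => (i + 2 * c * s, j))
      (by
        intro s s' h
        have := congrArg Prod.fst h
        simp only at this
        have h3 : 2 * (c : ℤ) * (s - s') = 0 := by linarith
        rcases mul_eq_zero.mp h3 with h4 | h4
        · exact absurd h4 (mul_ne_zero two_ne_zero hcZ)
        · linarith)
      (|i| + c * Fintype.card L)
      (fun s w h1 _ => ROT_bound _ _ s c hc _ (by have h := (hbd w).1; rw [h1] at h; exact h) rfl)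
    rw [cl, cl]
    refine Eq.trans e1 (Eq.trans ?_ e2.symm)
    congr 1
    refine (ROT_eq hT hD b c L V I κ n _ _ (ROT_rA b c) (by rintro (x | x) <;> rfl) ?_).symm
    intro w hw
    have hB : WB (⇑(ROT_rA b c) ∘ w) = WB w := by
      refine Finset.sum_congr rfl fun l _ => ?_
      show wb (ROT_rA b c (w l)) = wb (w l)
      rcases w l with x | x <;> rfl
    obtain ⟨k, hk⟩ := ROT_WA b c hc w
    have hn : nx (tw w) univ = κ.1 := congrArg Prod.fst hw
    rw [hn] at hk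
    constructor
    · rintro ⟨s, h1, h2⟩
      refine ⟨s - k, ?_, by rw [← hB]; exact h2⟩
      simp only at h1 ⊢
      linarith
    · rintro ⟨s, h1, h2⟩
      refine ⟨s + k, ?_, by rw [hB]; exact h2⟩
      simp only at h1 ⊢
      linarith
  · have e1 := ROT_dim hDS hPW hU b c L V I κ n (fun s => (i, j + 2 * κ.2 + 2 * b * s))
      (by
        intro s s' h
        have := congrArg Prod.snd h
        simp only at this
        have h3 : 2 * (b : ℤ) * (s - s') = 0 := by linarith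
        rcases mul_eq_zero.mp h3 with h4 | h4
        · exact absurd h4 (mul_ne_zero two_ne_zero hbZ)
        · linarith)
      (|j + 2 * κ.2| + b * Fintype.card L)
      (fun s w _ h1 => ROT_bound _ _ s b hb _ (by have h := (hbd w).2.1; rw [h1] at h; exact h) rfl)
    have e2 := ROT_dim hDS hPW hU b c L V I κ n (fun s => (i, j + 2 * b * s))
      (by
        intro s s' h
        have := congrArg Prod.snd h
        simp only at this
        have h3 : 2 * (b : ℤ) * (s - s') = 0 := by linarith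
        rcases mul_eq_zero.mp h3 with h4 | h4
        · exact absurd h4 (mul_ne_zero two_ne_zero hbZ)
        · linarith)
      (|j| + b * Fintype.card L)
      (fun s w _ h1 => ROT_bound _ _ s b hb _ (by have h := (hbd w).2.1; rw [h1] at h; exact h) rfl)
    rw [cl, cl]
    refine Eq.trans e1 (Eq.trans ?_ e2.symm)
    congr 1
    refine (ROT_eq hT hD b c L V I κ n _ _ (ROT_rB b c) (by rintro (x | x) <;> rfl) ?_).symm
    intro w hw
    have hA : WA (⇑(ROT_rB b c) ∘ w) = WA w := by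
      refine Finset.sum_congr rfl fun l _ => ?_
      show wa (ROT_rB b c (w l)) = wa (w l)
      rcases w l with x | x <;> rfl
    obtain ⟨k, hk⟩ := ROT_WB b c hb w
    have hn : ny (tw w) univ = κ.2 := congrArg Prod.snd hw
    rw [hn] at hk
    constructor
    · rintro ⟨s, h1, h2⟩
      refine ⟨s - k, by rw [← hA]; exact h1, ?_⟩
      simp only at h2 ⊢
      linarith
    · rintro ⟨s, h1, h2⟩
      refine ⟨s + k, by rw [hA]; exact h1, ?_⟩
      simp only at h2 ⊢
      linarith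

end Pool.Agent.Work.MP_c41774_al.Full.T
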